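import Pool.Agent.Helper36_XQ.Stmt5

/-!
Squad XQ, module E4_PTE (helper51): elementary facts on the points of the configuration.
-/

set_option autoImplicit false

namespace Pool.Agent.XQ.K4.H51

open MeasureTheory Complex Filter Topology ProbabilityTheory Pool.Agent.H16Iso Pool.Agent.H62T
  Pool.Agent.H16F Pool.Agent.H38KL Pool.Agent.AEU
open scoped ENNReal NNReal

section

variable (a b : ℝ)

lemma cos_gE : Real.cos (gE a b) = Real.sin b * Real.cos a - Real.cos b * Real.sin a := by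
  rw [gE, Real.cos_sub_pi_div_two, Real.sin_sub]

lemma sin_gE : Real.sin (gE a b) = -(Real.cos b * Real.cos a + Real.sin b * Real.sin a) := by
  rw [gE, Real.sin_sub_pi_div_two, Real.cos_sub]

lemma exp_re (t : ℝ) : (exp ((t : ℂ) * I)).re = Real.cos t := Complex.exp_ofReal_mul_I_re t

lemma exp_im (t : ℝ) : (exp ((t : ℂ) * I)).im = Real.sin t := Complex.exp_ofReal_mul_I_im t

lemma expn_re (t : ℝ) : (exp (-((t : ℂ) * I))).re = Real.cos t := by
  have : -((t : ℂ) * I) = ((-t : ℝ) : ℂ) * I := by push_cast; ring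
  rw [this, exp_re, Real.cos_neg]

lemma expn_im (t : ℝ) : (exp (-((t : ℂ) * I))).im = -Real.sin t := by
  have : -((t : ℂ) * I) = ((-t : ℝ) : ℂ) * I := by push_cast; ring
  rw [this, exp_im, Real.sin_neg]

end

lemma rfq_re (a ρ : ℝ) (x : ℂ) : (rfq a ρ x).re =
    x.re - 2 * (Real.cos a * x.re + Real.sin a * x.im - Real.cos a * ρ) * Real.cos a := by
  simp only [rfq, ip, sub_re, re_ofReal_mul, exp_re, exp_im, ofReal_re, ofReal_im, mul_zero,
    add_zero]

lemma rfq_im (a ρ : ℝ) (x : ℂ) : (rfq a ρ x).im =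
    x.im - 2 * (Real.cos a * x.re + Real.sin a * x.im - Real.cos a * ρ) * Real.sin a := by
  simp only [rfq, ip, sub_im, im_ofReal_mul, exp_re, exp_im, ofReal_re, ofReal_im, mul_zero,
    add_zero]

lemma mi_re (a b ρ : ℝ) (x : ℂ) : (mi a b ρ x).re =
    Real.cos (gE a b) * (rfq a ρ x).re - Real.sin (gE a b) * (rfq a ρ x).im := by
  simp only [mi, mul_re, exp_re, exp_im]

lemma mi_im (a b ρ : ℝ) (x : ℂ) : (mi a b ρ x).im =
    Real.cos (gE a b) * (rfq a ρ x).im + Real.sin (gE a b) * (rfq a ρ x).re := by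
  simp only [mi, mul_im, exp_re, exp_im]

lemma rf2 (a b ρ η1 η2 : ℝ) (x : ℂ) :
    rf (uE η1 η2 a b) (hE a b ρ) 2 x = rfq a ρ x := rfl

lemma exp_cancel (t : ℝ) (z : ℂ) : exp (-((t : ℂ) * I)) * (exp ((t : ℂ) * I) * z) = z := by
  rw [← mul_assoc, ← Complex.exp_add, neg_add_cancel, Complex.exp_zero, one_mul]

lemma exp_cancel' (t : ℝ) (z : ℂ) : exp ((t : ℂ) * I) * (exp (-((t : ℂ) * I)) * z) = z := by
  rw [← mul_assoc, ← Complex.exp_add, add_neg_cancel, Complex.exp_zero, one_mul]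

lemma rf3 (a b ρ η1 η2 : ℝ) (x : ℂ) :
    rf (uE η1 η2 a b) (hE a b ρ) 3 x = exp (gE a b * I) * (LE a b ρ - mi a b ρ x) := by
  have h1 := Real.sin_sq_add_cos_sq a
  have h2 := Real.sin_sq_add_cos_sq b
  have e1 : rf (uE η1 η2 a b) (hE a b ρ) 3 x =
      x - ((2 * (ip (exp (b * I)) x - ip (exp (b * I)) ρ) : ℝ) : ℂ) * exp (b * I) := rfl
  rw [e1]
  apply Complex.ext
  · simp only [ip, sub_re, re_ofReal_mul, exp_re, exp_im, ofReal_re, ofReal_im, mul_zero,
      add_zero, mul_re, mi_re, mi_im, rfq_re, rfq_im, sub_im, cos_gE, sin_gE, LE, Real.sin_sub]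
    grind
  · simp only [ip, sub_re, im_ofReal_mul, exp_re, exp_im, ofReal_re, ofReal_im, mul_zero,
      add_zero, mul_im, mi_re, mi_im, rfq_re, rfq_im, sub_im, cos_gE, sin_gE, LE, Real.sin_sub]
    grind

lemma rfq_norm (a ρ : ℝ) (x y : ℂ) : ‖rfq a ρ x - rfq a ρ y‖ = ‖x - y‖ := by
  have h1 := Real.sin_sq_add_cos_sq a
  have h2 : ‖rfq a ρ x - rfq a ρ y‖ ^ 2 = ‖x - y‖ ^ 2 := by
    rw [← Complex.normSq_eq_norm_sq, ← Complex.normSq_eq_norm_sq, Complex.normSq_apply,
      Complex.normSq_apply]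
    simp only [sub_re, sub_im, rfq_re, rfq_im]
    grind
  exact (pow_left_inj₀ (norm_nonneg _) (norm_nonneg _) two_ne_zero).1 h2

lemma mi_norm (a b ρ : ℝ) (x y : ℂ) : ‖mi a b ρ x - mi a b ρ y‖ = ‖x - y‖ := by
  rw [mi, mi, ← mul_sub, norm_mul, Complex.norm_exp_ofReal_mul_I, one_mul, rfq_norm]

theorem pte : PteStatement := by
  intro a b ρ H
  have ha1 := H.b1
  have ha2 := H.b2
  have hb1 := H.b3
  have hb2 := H.b4
  have h5 := H.b5
  have hρ := H.r
  have hs1 : Real.sin a < 0 := Real.sin_neg_of_neg_of_neg_pi_lt ha2 (by linarith [Real.pi_pos])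
  have hc1 : 0 < Real.cos a := Real.cos_pos_of_mem_Ioo ⟨ha1, by linarith [Real.pi_pos]⟩
  have hs2 : 0 < Real.sin b := Real.sin_pos_of_pos_of_lt_pi hb1 (by linarith [Real.pi_pos])
  have hc2 : 0 < Real.cos b := Real.cos_pos_of_mem_Ioo ⟨by linarith, hb2⟩
  have h1 := Real.sin_sq_add_cos_sq a
  have h2 := Real.sin_sq_add_cos_sq b
  have hX : Real.cos b * Real.cos a + Real.sin b * Real.sin a < 0 := by
    rw [← Real.cos_sub]
    exact Real.cos_neg_of_pi_div_two_lt_of_lt h5 (by linarith)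
  have hY : 0 < Real.sin b * Real.cos a - Real.cos b * Real.sin a := by
    rw [← Real.sin_sub]
    exact Real.sin_pos_of_pos_of_lt_pi (by linarith [Real.pi_pos]) (by linarith)
  have hsq : 0 < sq a b ρ := by unfold sq; positivity
  have hsr : 0 < sr a b ρ := by
    unfold sr
    have : 0 < -Real.sin a := by linarith
    positivity
  have hsqE : sq a b ρ * Real.sin b = ρ * Real.cos a := by unfold sq; field_simp
  have hsrE : sr a b ρ * Real.sin a = -(ρ * Real.cos b) := by
    unfold sr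
    have : Real.sin a ≠ 0 := hs1.ne
    field_simp
  have hLt : sq a b ρ < LE a b ρ - sr a b ρ := by
    have e : (LE a b ρ - sr a b ρ - sq a b ρ) * (Real.sin b * (-Real.sin a)) =
        ρ * (-(Real.cos b * Real.cos a + Real.sin b * Real.sin a) *
          (Real.sin b * Real.cos a - Real.cos b * Real.sin a)) := by
      have e1 : (LE a b ρ - sr a b ρ - sq a b ρ) * (Real.sin b * (-Real.sin a)) =
          LE a b ρ * (Real.sin b * (-Real.sin a)) + (sr a b ρ * Real.sin a) * Real.sin b +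
            (sq a b ρ * Real.sin b) * Real.sin a := by ring
      rw [e1, hsqE, hsrE, LE, Real.sin_sub]
      grind
    have h3 : 0 < Real.sin b * (-Real.sin a) := mul_pos hs2 (by linarith)
    have h4 : 0 < ρ * (-(Real.cos b * Real.cos a + Real.sin b * Real.sin a) *
          (Real.sin b * Real.cos a - Real.cos b * Real.sin a)) :=
      mul_pos hρ (mul_pos (by linarith) hY)
    rw [← e] at h4
    have := pos_of_mul_pos_left h4 h3.le
    linarith
  have hQre : (Qp a b ρ).re = Real.cos (gE a b) * sq a b ρ := by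
    simp only [Qp, mul_re, expn_re, expn_im, ofReal_re, ofReal_im, mul_zero, sub_zero]
  have hQim : (Qp a b ρ).im = -Real.sin (gE a b) * sq a b ρ := by
    simp only [Qp, mul_im, expn_re, expn_im, ofReal_re, ofReal_im, mul_zero, zero_add]
  have hRre : (Rp a b ρ).re = Real.cos (gE a b) * sr a b ρ := by
    simp only [Rp, mul_re, exp_re, exp_im, ofReal_re, ofReal_im, mul_zero, sub_zero]
  have hRim : (Rp a b ρ).im = Real.sin (gE a b) * sr a b ρ := by
    simp only [Rp, mul_im, exp_re, exp_im, ofReal_re, ofReal_im, mul_zero, zero_add]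
  have hQ1 : ip (exp (a * I)) (Qp a b ρ) = ip (exp (a * I)) ρ := by
    simp only [ip, exp_re, exp_im, hQre, hQim, ofReal_re, ofReal_im, mul_zero, add_zero,
      cos_gE, sin_gE]
    have : Real.cos a * ((Real.sin b * Real.cos a - Real.cos b * Real.sin a) * sq a b ρ) +
      Real.sin a * (-(-(Real.cos b * Real.cos a + Real.sin b * Real.sin a)) * sq a b ρ) =
        sq a b ρ * Real.sin b * (Real.sin a ^ 2 + Real.cos a ^ 2) := by ring
    rw [this, h1, hsqE]
    ring
  have hR1 : ip (exp (b * I)) (Rp a b ρ) = ip (exp (b * I)) ρ := by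
    simp only [ip, exp_re, exp_im, hRre, hRim, ofReal_re, ofReal_im, mul_zero, add_zero,
      cos_gE, sin_gE]
    have : Real.cos b * ((Real.sin b * Real.cos a - Real.cos b * Real.sin a) * sr a b ρ) +
      Real.sin b * (-(Real.cos b * Real.cos a + Real.sin b * Real.sin a) * sr a b ρ) =
        -(sr a b ρ * Real.sin a * (Real.sin b ^ 2 + Real.cos b ^ 2)) := by ring
    rw [this, h2, hsrE]
    ring
  have hQ2 : ip (exp (b * I)) (Qp a b ρ) < ip (exp (b * I)) ρ := by
    have e : (ip (exp (b * I)) ρ - ip (exp (b * I)) (Qp a b ρ)) * Real.sin b =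
        ρ * (-(Real.cos b * Real.cos a + Real.sin b * Real.sin a) *
          (Real.sin b * Real.cos a - Real.cos b * Real.sin a)) := by
      simp only [ip, exp_re, exp_im, hQre, hQim, ofReal_re, ofReal_im, mul_zero, add_zero,
        cos_gE, sin_gE]
      grind
    have h4 : 0 < ρ * (-(Real.cos b * Real.cos a + Real.sin b * Real.sin a) *
          (Real.sin b * Real.cos a - Real.cos b * Real.sin a)) :=
      mul_pos hρ (mul_pos (by linarith) hY)
    rw [← e] at h4
    have := pos_of_mul_pos_left h4 hs2.le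
    linarith
  have hR2 : ip (exp (a * I)) (Rp a b ρ) < ip (exp (a * I)) ρ := by
    have e : (ip (exp (a * I)) ρ - ip (exp (a * I)) (Rp a b ρ)) * (-Real.sin a) =
        ρ * (-(Real.cos b * Real.cos a + Real.sin b * Real.sin a) *
          (Real.sin b * Real.cos a - Real.cos b * Real.sin a)) := by
      simp only [ip, exp_re, exp_im, hRre, hRim, ofReal_re, ofReal_im, mul_zero, add_zero,
        cos_gE, sin_gE]
      grind
    have h4 : 0 < ρ * (-(Real.cos b * Real.cos a + Real.sin b * Real.sin a) *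
          (Real.sin b * Real.cos a - Real.cos b * Real.sin a)) :=
      mul_pos hρ (mul_pos (by linarith) hY)
    rw [← e] at h4
    have := pos_of_mul_pos_left h4 (by linarith : (0 : ℝ) ≤ -Real.sin a)
    linarith
  have hmQ : mi a b ρ (Qp a b ρ) = sq a b ρ := by
    have e : rfq a ρ (Qp a b ρ) = Qp a b ρ := by
      rw [rfq, hQ1, sub_self, mul_zero, ofReal_zero, zero_mul, sub_zero]
    rw [mi, e, Qp, exp_cancel']
  have hmR : mi a b ρ (Rp a b ρ) = (LE a b ρ - sr a b ρ : ℝ) := by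
    have e : rf (uE 0 0 a b) (hE a b ρ) 3 (Rp a b ρ) = Rp a b ρ := by
      show Rp a b ρ - ((2 * (ip (exp (b * I)) (Rp a b ρ) - ip (exp (b * I)) ρ) : ℝ) : ℂ) *
        exp (b * I) = Rp a b ρ
      rw [hR1, sub_self, mul_zero, ofReal_zero, zero_mul, sub_zero]
    rw [rf3, Rp] at e
    have e2 := mul_left_cancel₀ (Complex.exp_ne_zero _) e
    rw [← Rp] at e2
    push_cast
    linear_combination -e2
  refine ⟨?_, ?_, hsq, hsr, hLt, ?_, hQ1, hR1, hQ2, hR2, hmQ, hmR, mi_norm a b ρ, ?_⟩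
  · unfold gE; linarith
  · unfold gE; linarith
  · rw [← mi_norm a b ρ, hmQ, hmR, ← ofReal_sub, Complex.norm_real, Real.norm_eq_abs,
      abs_of_neg (by linarith)]
    ring
  · intro η1 η2 x
    refine ⟨?_, rf3 a b ρ η1 η2 x, ?_⟩
    · rw [rf2, mi, exp_cancel]
    · simp only [ip, exp_re, exp_im, cos_gE]
      ring

end Pool.Agent.XQ.K4.H51
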