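import Pool.Agent.Helper36_XQ.Stmt5

/-!
Squad XQ, module E4_VCH (helper51): a nearly minimal chain through a point with small real part
passes near the vertex.
-/

set_option autoImplicit false

namespace Pool.Agent.XQ.K4.H51

open MeasureTheory Complex Filter Topology ProbabilityTheory Pool.Agent.H16Iso Pool.Agent.H62T
  Pool.Agent.H16F Pool.Agent.H38KL Pool.Agent.AEU
open scoped ENNReal NNReal

lemma vch_exc (t : ℝ) (z p : ℂ) :
    z.re - (Real.cos t * p.re + Real.sin t * p.im) ≤ ‖exp (t * I) * z - p‖ ∧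
    (z.im - (Real.cos t * p.im - Real.sin t * p.re)) ^ 2 =
      (‖exp (t * I) * z - p‖ - (z.re - (Real.cos t * p.re + Real.sin t * p.im))) *
        (‖exp (t * I) * z - p‖ + (z.re - (Real.cos t * p.re + Real.sin t * p.im))) := by
  have h1 := Real.sin_sq_add_cos_sq t
  have h2 : ‖exp (t * I) * z - p‖ ^ 2 =
      (z.re - (Real.cos t * p.re + Real.sin t * p.im)) ^ 2 +
      (z.im - (Real.cos t * p.im - Real.sin t * p.re)) ^ 2 := by
    rw [← Complex.normSq_eq_norm_sq, Complex.normSq_apply]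
    simp only [sub_re, sub_im, mul_re, mul_im, Complex.exp_ofReal_mul_I_re,
      Complex.exp_ofReal_mul_I_im]
    linear_combination (z.re ^ 2 + z.im ^ 2 - p.re ^ 2 - p.im ^ 2) * h1
  refine ⟨?_, by linear_combination -h2⟩
  refine le_trans (le_abs_self _) (abs_le_of_sq_le_sq ?_ (norm_nonneg _))
  nlinarith [sq_nonneg (z.im - (Real.cos t * p.im - Real.sin t * p.re))]

lemma vch_num {c s L δ μ ε n1 n2 X1 X2 Y1 Y2 p1 p2 ξ : ℝ} (hc : 0 < c) (hs : 0 < s)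
    (hc1 : c ≤ 1) (hs1 : s ≤ 1) (hL : 0 < L) (hδ : 0 < δ) (hδ1 : δ ≤ 1) (hδ2 : δ ≤ μ)
    (hδ3 : δ * (10 * (L + 1)) ≤ μ ^ 2) (hμ : μ = ε * (s * c) / 8) (hε : 0 < ε)
    (hx1 : |X1 - ξ| < δ) (hx2 : |X2| < δ) (hy1 : |Y1 - ξ| < δ) (hy2 : |Y2| < δ) (hp : p1 ≤ δ)
    (hn1 : 0 ≤ n1) (hn2 : 0 ≤ n2) (hn : n1 + n2 < L + δ)
    (e1 : (L - Y1) - (c * p1 + s * p2) ≤ n1)
    (e2 : X1 - (c * p1 - s * p2) ≤ n2)
    (f1 : (-Y2 - (c * p2 - s * p1)) ^ 2 = (n1 - ((L - Y1) - (c * p1 + s * p2))) *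
      (n1 + ((L - Y1) - (c * p1 + s * p2))))
    (f2 : (X2 - (c * p2 + s * p1)) ^ 2 = (n2 - (X1 - (c * p1 - s * p2))) *
      (n2 + (X1 - (c * p1 - s * p2)))) : |p1| + |p2| < ε := by
  obtain ⟨a1, a2⟩ := abs_lt.1 hx1
  obtain ⟨a3, a4⟩ := abs_lt.1 hx2
  obtain ⟨a5, a6⟩ := abs_lt.1 hy1
  obtain ⟨a7, a8⟩ := abs_lt.1 hy2
  have hcp : c * p1 ≤ δ := by
    rcases le_total p1 0 with h | h
    · exact (mul_nonpos_of_nonneg_of_nonpos hc.le h).trans hδ.le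
    · exact ((mul_le_mul_of_nonneg_right hc1 h).trans_eq (one_mul p1)).trans hp
  have g1 : n1 - ((L - Y1) - (c * p1 + s * p2)) ≤ 5 * δ := by linarith
  have g2 : n2 - (X1 - (c * p1 - s * p2)) ≤ 5 * δ := by linarith
  have hμ0 : 0 < μ := by rw [hμ]; positivity
  have k1 : (-Y2 - (c * p2 - s * p1)) ^ 2 ≤ μ ^ 2 := by
    rw [f1]
    have h1 : n1 + ((L - Y1) - (c * p1 + s * p2)) ≤ 2 * (L + 1) := by linarith
    have h2 : 0 ≤ n1 - ((L - Y1) - (c * p1 + s * p2)) := by linarith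
    calc _ ≤ (n1 - ((L - Y1) - (c * p1 + s * p2))) * (2 * (L + 1)) :=
          mul_le_mul_of_nonneg_left h1 h2
      _ ≤ (5 * δ) * (2 * (L + 1)) := mul_le_mul_of_nonneg_right g1 (by linarith)
      _ ≤ μ ^ 2 := by linarith
  have k2 : (X2 - (c * p2 + s * p1)) ^ 2 ≤ μ ^ 2 := by
    rw [f2]
    have h1 : n2 + (X1 - (c * p1 - s * p2)) ≤ 2 * (L + 1) := by linarith
    have h2 : 0 ≤ n2 - (X1 - (c * p1 - s * p2)) := by linarith
    calc _ ≤ (n2 - (X1 - (c * p1 - s * p2))) * (2 * (L + 1)) :=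
          mul_le_mul_of_nonneg_left h1 h2
      _ ≤ (5 * δ) * (2 * (L + 1)) := mul_le_mul_of_nonneg_right g2 (by linarith)
      _ ≤ μ ^ 2 := by linarith
  obtain ⟨b1, b2⟩ := abs_le.1 (abs_le_of_sq_le_sq k1 hμ0.le)
  obtain ⟨b3, b4⟩ := abs_le.1 (abs_le_of_sq_le_sq k2 hμ0.le)
  have q1 : |s * p1| ≤ 2 * μ := abs_le.2 ⟨by linarith, by linarith⟩
  have q2 : |c * p2| ≤ 2 * μ := abs_le.2 ⟨by linarith, by linarith⟩
  rw [abs_mul, abs_of_pos hs] at q1
  rw [abs_mul, abs_of_pos hc] at q2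
  have r1 : |p1| ≤ ε * c / 4 := by
    have : s * |p1| ≤ s * (ε * c / 4) := by
      rw [hμ] at q1; linarith
    exact le_of_mul_le_mul_left this hs
  have r2 : |p2| ≤ ε * s / 4 := by
    have : c * |p2| ≤ c * (ε * s / 4) := by
      rw [hμ] at q2; linarith
    exact le_of_mul_le_mul_left this hc
  have m1 := mul_le_mul_of_nonneg_left hc1 hε.le
  have m2 := mul_le_mul_of_nonneg_left hs1 hε.le
  linarith

theorem vch : VchStatement := by
  intro a b ρ ε H hε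
  have hb5 := H.b5
  have hb4 := H.b4
  have hb1 := H.b1
  have hγ1 : 0 < gE a b := by unfold gE; linarith
  have hγ2 : gE a b < Real.pi / 2 := by unfold gE; linarith
  have hc : 0 < Real.cos (gE a b) := Real.cos_pos_of_mem_Ioo ⟨by linarith, hγ2⟩
  have hs : 0 < Real.sin (gE a b) := Real.sin_pos_of_pos_of_lt_pi hγ1 (by linarith)
  have hcs := Real.sin_sq_add_cos_sq (gE a b)
  have hL : 0 < LE a b ρ := by
    have : 0 < Real.sin (b - a) :=
      Real.sin_pos_of_pos_of_lt_pi (by linarith [Real.pi_pos]) (by linarith)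
    have := H.r
    unfold LE; positivity
  obtain ⟨μ, hμ⟩ : ∃ μ, μ = ε * (Real.sin (gE a b) * Real.cos (gE a b)) / 8 := ⟨_, rfl⟩
  have hμ0 : 0 < μ := by rw [hμ]; positivity
  have hd : 0 < μ ^ 2 / (10 * (LE a b ρ + 1)) := by positivity
  obtain ⟨δ, hδ0, hδ1, hδ2, hδ3⟩ : ∃ δ : ℝ, 0 < δ ∧ δ ≤ 1 ∧ δ ≤ μ ∧
      δ * (10 * (LE a b ρ + 1)) ≤ μ ^ 2 := by
    refine ⟨min (min 1 μ) (μ ^ 2 / (10 * (LE a b ρ + 1))), by positivity,
      (min_le_left _ _).trans (min_le_left _ _), (min_le_left _ _).trans (min_le_right _ _), ?_⟩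
    have := min_le_right (min 1 μ) (μ ^ 2 / (10 * (LE a b ρ + 1)))
    rwa [le_div_iff₀ (by positivity)] at this
  refine ⟨δ, hδ0, fun x y p hx1 hx2 hy1 hy2 hp hlt => ?_⟩
  have hn : -((gE a b : ℂ) * I) = ((-gE a b : ℝ) : ℂ) * I := by push_cast; ring
  have t1 := vch_exc (gE a b) (LE a b ρ - y) p
  have t2 := vch_exc (-gE a b) x p
  rw [norm_sub_rev p, hn] at hlt
  have hn1 := norm_nonneg (exp (gE a b * I) * (LE a b ρ - y) - p)
  have hn2 := norm_nonneg (exp ((-gE a b : ℝ) * I) * x - p)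
  generalize ‖exp (gE a b * I) * (LE a b ρ - y) - p‖ = n1 at hlt t1 hn1
  generalize ‖exp ((-gE a b : ℝ) * I) * x - p‖ = n2 at hlt t2 hn2
  simp only [sub_re, sub_im, Real.cos_neg, Real.sin_neg, ofReal_re, ofReal_im] at t1 t2
  refine lt_of_le_of_lt (Complex.norm_le_abs_re_add_abs_im p) ?_
  refine vch_num hc hs (Real.cos_le_one _) (Real.sin_le_one _) hL hδ0 hδ1 hδ2 hδ3 hμ hε
    hx1 hx2 hy1 hy2 hp hn1 hn2 hlt t1.1 ?_ ?_ ?_
  · linarith [t2.1]
  · have := t1.2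
    rw [zero_sub] at this
    exact this
  · have := t2.2
    linear_combination this

end Pool.Agent.XQ.K4.H51
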